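import Pool.Agent.MWA.StmtsB

/-!
# Squad MWA, row LGT: light types of degree 2
-/

set_option autoImplicit false

namespace Pool.Agent.MWA.H96

open Pool.Agent.Helper14_MV Pool.Agent.Helper2_MV Pool.Agent.MVO Pool.Agent.MWL Pool.Agent.MWS
  Pool.Agent.MWA

theorem lgt (hHAB : HabStmt) (hABU : AbuStmt) : LgtStmt := by
  intro θ hap k b i x hd hL h1 hx hJ hno hno2
  obtain ⟨hik, hbi, hlast⟩ := hL
  have hle : ∀ r, r < i → b r ≤ 1 := by
    intro r hr
    by_contra hc
    exact hno r hr ((hHAB θ hap).1 k b r (by omega) (by omega))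
  have hex : ∃ p, p < i ∧ b p = 1 := by
    by_contra hc
    have hz : ∀ r, r < i → b r = 0 := by
      intro r hr
      have h2 := hle r hr
      by_contra h3
      exact hc ⟨r, hr, by omega⟩
    have hs : deg k b = b i := by
      unfold deg
      apply Finset.sum_eq_single_of_mem i (Finset.mem_range.mpr (by omega))
      intro r hr hri
      have hrk : r < k + 1 := Finset.mem_range.mp hr
      rcases Nat.lt_or_gt_of_ne hri with h | h
      · exact hz r h
      · exact hlast r h (by omega)
    omega
  obtain ⟨p, hp, hbp⟩ := hex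
  refine ⟨p, hp, hik, ?_⟩
  have key : ∀ r0 r1, r0 < r1 → r1 < i → b r0 = 1 → b r1 = 1 → False := by
    intro r0 r1 h01 h1i hb0 hb1
    have hab := (hABU θ).2 1 1 1 k r0 r1 i x b (by omega) hJ (by omega) (by omega) hik
      (by
        intro t _
        split_ifs <;> first | omega | (subst_vars; omega))
    rcases hx with h | h
    · subst h
      exact hno r0 (by omega) (by simpa using hab)
    · subst h
      exact hno2 rfl (by simpa using hab)
  intro r hr
  by_cases hri : r = i
  · subst hri
    simp [h1]
  by_cases hrp : r = p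
  · subst hrp
    simp [hbp]
  rw [if_neg (by tauto)]
  rcases Nat.lt_or_gt_of_ne hri with h | h
  · have h2 := hle r h
    by_contra h3
    have h4 : b r = 1 := by omega
    rcases Nat.lt_or_gt_of_ne hrp with h5 | h5
    · exact key r p h5 hp h4 hbp
    · exact key p r h5 h hbp h4
  · exact hlast r h hr

end Pool.Agent.MWA.H96
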